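import Pool.Agent.K1H17.SC.Stm2

/-! Rational varieties are rationally connected (field-theoretic form). -/

set_option autoImplicit false

open Polynomial IntermediateField

namespace Pool.Agent.K1H99.SC

section
variable {k K : Type} [Field k] [Field K] [Algebra k K] {n : ℕ} {t : Fin n → K}

/-- A purely transcendental extension maps to every field with a given independent family. -/
theorem exists_lift (ht : AlgebraicIndependent k t) (htop : adjoin k (Set.range t) = ⊤)
    {L : Type} [Field L] [Algebra k L] (a : Fin n → L) (ha : AlgebraicIndependent k a) :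
    ∃ φ : K →ₐ[k] L, ∀ P : MvPolynomial (Fin n) k, φ (MvPolynomial.aeval t P)
      = MvPolynomial.aeval a P := by
  let e1 : FractionRing (MvPolynomial (Fin n) k) ≃ₐ[k] adjoin k (Set.range t) :=
    ht.aevalEquivField
  let e2 : adjoin k (Set.range t) ≃ₐ[k] K := (equivOfEq htop).trans topEquiv
  let l : FractionRing (MvPolynomial (Fin n) k) →ₐ[k] L :=
    IsFractionRing.liftAlgHom (g := (MvPolynomial.aeval a : MvPolynomial (Fin n) k →ₐ[k] L)) ha
  refine ⟨l.comp ((e1.trans e2).symm : K →ₐ[k] FractionRing (MvPolynomial (Fin n) k)),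
    fun P => ?_⟩
  have h1 : (e1.trans e2).symm (MvPolynomial.aeval t P) = algebraMap _ _ P := by
    rw [AlgEquiv.symm_apply_eq]
    have := ht.aevalEquivField_algebraMap_apply_coe P
    rw [AlgEquiv.trans_apply]
    rw [← this]
    rfl
  rw [AlgHom.comp_apply]
  change l ((e1.trans e2).symm (MvPolynomial.aeval t P)) = _
  rw [h1]
  exact IsFractionRing.lift_algebraMap
    (g := (MvPolynomial.aeval a : MvPolynomial (Fin n) k →ₐ[k] L).toRingHom) ha P

/-- Every element is a quotient of polynomials. -/
theorem exists_frac (ht : AlgebraicIndependent k t) (htop : adjoin k (Set.range t) = ⊤) (f : K) :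
    ∃ P Q : MvPolynomial (Fin n) k, Q ≠ 0 ∧
      f * MvPolynomial.aeval t Q = MvPolynomial.aeval t P := by
  have hf : f ∈ adjoin k (Set.range t) := by rw [htop]; exact mem_top
  obtain ⟨P, Q, hPQ⟩ := (mem_adjoin_range_iff k t f).1 hf
  by_cases hQ : Q = 0
  · refine ⟨0, 1, one_ne_zero, ?_⟩
    rw [hPQ, hQ]; simp
  · refine ⟨P, Q, hQ, ?_⟩
    have : MvPolynomial.aeval t Q ≠ 0 := fun h => hQ (ht (by rw [h, map_zero]))
    rw [hPQ, div_mul_cancel₀ _ this]

end

theorem t_RRC : Pool.Agent.K1H17.SC.S_RRC := by
  intro k K _ _ _ _ _ n t ht htop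
  classical
  let M := MvPolynomial (Fin n) K
  let E := FractionRing M
  -- `p` = constants, `q t_i = X_i`
  let p : K →ₐ[k] E := IsScalarTower.toAlgHom k K E
  have hpM : ∀ c : K, p c = algebraMap M E (MvPolynomial.C c) := fun c => by
    change algebraMap K E c = _
    rw [IsScalarTower.algebraMap_apply K M E]
    rfl
  let b : Fin n → E := fun i => algebraMap M E (MvPolynomial.X i)
  have hMinj : Function.Injective (algebraMap M E) := IsFractionRing.injective M E
  have hb1 : ∀ P : MvPolynomial (Fin n) k,
      MvPolynomial.aeval b P = algebraMap M E (MvPolynomial.map (algebraMap k K) P) := by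
    intro P
    induction P using MvPolynomial.induction_on with
    | C c =>
      rw [MvPolynomial.algHom_C, MvPolynomial.map_C]
      rw [IsScalarTower.algebraMap_apply k M E]
      rfl
    | add f g hf hg => rw [map_add, hf, hg, map_add, map_add]
    | mul_X f i hf => rw [map_mul, hf, MvPolynomial.aeval_X, map_mul, map_mul, MvPolynomial.map_X]
  have hb : AlgebraicIndependent k b := by
    intro P Q hPQ
    rw [hb1, hb1] at hPQ
    exact MvPolynomial.map_injective _ (algebraMap k K).injective (hMinj hPQ)
  obtain ⟨q, hq⟩ := exists_lift ht htop b hb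
  -- the family of lines
  let a : Fin n → E := fun i => p (t i)
  have hpa : ∀ P : MvPolynomial (Fin n) k, p (MvPolynomial.aeval t P) = MvPolynomial.aeval a P :=
    fun P => by
      rw [← MvPolynomial.comp_aeval_apply]
  have ha : AlgebraicIndependent k a := by
    intro P Q hPQ
    rw [← hpa, ← hpa] at hPQ
    exact ht (p.toRingHom.injective hPQ)
  let c : Fin n → E[X] := fun i => C (a i) + X * C (b i - a i)
  let c' : Fin n → RatFunc E := fun i => algebraMap E[X] (RatFunc E) (c i)
  have hc' : ∀ P : MvPolynomial (Fin n) k,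
      MvPolynomial.aeval c' P = algebraMap E[X] (RatFunc E) (MvPolynomial.aeval c P) := by
    intro P
    induction P using MvPolynomial.induction_on with
    | C d =>
      rw [MvPolynomial.algHom_C, MvPolynomial.algHom_C]
      rw [← IsScalarTower.algebraMap_apply k E[X] (RatFunc E)]
    | add f g hf hg => rw [map_add, hf, hg, map_add, map_add]
    | mul_X f i hf => rw [map_mul, hf, MvPolynomial.aeval_X, map_mul, map_mul, MvPolynomial.aeval_X]
  have hev : ∀ (x : E) (d : Fin n → E), (∀ i, (c i).eval x = d i) →
      ∀ P : MvPolynomial (Fin n) k,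
      (MvPolynomial.aeval c P : E[X]).eval x = MvPolynomial.aeval d P := by
    intro x d hd P
    induction P using MvPolynomial.induction_on with
    | C r =>
      rw [MvPolynomial.algHom_C, MvPolynomial.algHom_C]
      rw [IsScalarTower.algebraMap_apply k E E[X], Polynomial.algebraMap_eq, eval_C]
    | add f g hf hg => rw [map_add, eval_add, hf, hg, map_add]
    | mul_X f i hf =>
      rw [map_mul, eval_mul, hf, MvPolynomial.aeval_X, map_mul, MvPolynomial.aeval_X, hd i]
  have h0 : ∀ i, (c i).eval 0 = a i := fun i => by simp [c]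
  have h1 : ∀ i, (c i).eval 1 = b i := fun i => by simp [c]
  have hcind : AlgebraicIndependent k c' := by
    intro P Q hPQ
    rw [hc', hc'] at hPQ
    have h2 := IsFractionRing.injective E[X] (RatFunc E) hPQ
    have h3 := congrArg (fun z : E[X] => z.eval 0) h2
    simp only [hev 0 a h0] at h3
    exact ha h3
  obtain ⟨ψ, hψ⟩ := exists_lift ht htop c' hcind
  have hval : ∀ (x : E) (d : Fin n → E) (r : K →ₐ[k] E), AlgebraicIndependent k d →
      (∀ i, (c i).eval x = d i) → (∀ P : MvPolynomial (Fin n) k,
        r (MvPolynomial.aeval t P) = MvPolynomial.aeval d P) →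
      ∀ f, Pool.Agent.K1H17.MT.HasValue (ψ f) x (r f) := by
    intro x d r hd hcd hr f
    obtain ⟨P, Q, hQ, hPQ⟩ := exists_frac ht htop f
    refine ⟨MvPolynomial.aeval c P, MvPolynomial.aeval c Q, ?_, ?_, ?_⟩
    · rw [hev x d hcd]
      exact fun h => hQ (hd (by rw [h, map_zero]))
    · rw [hev x d hcd, hev x d hcd, ← hr, ← hr, ← hPQ, map_mul]
    · rw [← hc', ← hc', ← hψ, ← hψ, ← hPQ, map_mul]
  refine ⟨E, inferInstance, inferInstance, ψ, p, q, fun f =>
    ⟨hval 0 a p ha h0 hpa f, hval 1 b q hb h1 hq f⟩, ?_⟩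
  intro m f g hf hsum
  -- common denominator
  have hden : ∃ (S : MvPolynomial (Fin n) k) (R : Fin m → MvPolynomial (Fin n) k), S ≠ 0 ∧
      ∀ i, g i * MvPolynomial.aeval t S = MvPolynomial.aeval t (R i) := by
    choose P Q hQ hPQ using fun i => exists_frac ht htop (g i)
    refine ⟨∏ j, Q j, fun i => P i * ∏ j ∈ Finset.univ.erase i, Q j,
      Finset.prod_ne_zero_iff.2 fun j _ => hQ j, fun i => ?_⟩
    rw [← Finset.mul_prod_erase _ _ (Finset.mem_univ i), map_mul, map_mul, ← hPQ i]
    ring
  obtain ⟨S, R, hS, hR⟩ := hden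
  have hS' : MvPolynomial.aeval t S ≠ 0 := fun h => hS (ht (by rw [h, map_zero]))
  have h2 : ∑ i, MvPolynomial.C (f i) * MvPolynomial.map (algebraMap k K) (R i) = (0 : M) := by
    apply hMinj
    rw [map_sum, map_zero]
    have h3 : ∑ i, algebraMap M E (MvPolynomial.C (f i) * MvPolynomial.map (algebraMap k K) (R i))
        = (∑ i, p (f i) * q (g i)) * q (MvPolynomial.aeval t S) := by
      rw [Finset.sum_mul]
      refine Finset.sum_congr rfl fun i _ => ?_
      rw [map_mul, ← hpM, ← hb1, ← hq, ← hR i, map_mul, mul_assoc]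
    rw [h3, hsum, zero_mul]
  have h4 : ∀ i, R i = 0 := by
    intro i
    ext s
    have h5 := congrArg (MvPolynomial.coeff s) h2
    rw [MvPolynomial.coeff_sum] at h5
    rw [MvPolynomial.coeff_zero] at h5
    have h6 := Fintype.linearIndependent_iff.1 hf (fun i => MvPolynomial.coeff s (R i)) (by
      rw [← h5]
      refine Finset.sum_congr rfl fun i _ => ?_
      rw [Algebra.smul_def, mul_comm]
      exact ((MvPolynomial.coeff_C_mul s (f i) (MvPolynomial.map (algebraMap k K) (R i))).trans
        (by rw [MvPolynomial.coeff_map])).symm) i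
    simpa using h6
  funext i
  have h7 := hR i
  rw [h4 i, map_zero] at h7
  exact (mul_eq_zero.1 h7).resolve_right hS'

end Pool.Agent.K1H99.SC
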